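import Pool.Agent.Lib.MP_cb3f7b_gt.Ins.Fub

set_option autoImplicit false

namespace CB3

open MeasureTheory Set Metric Module
open scoped RealInnerProductSpace ENNReal NNReal Pointwise

lemma isClosed_Ell {n : ℕ} (w : Fin n → ℝ) : IsClosed (Ell w) := by
  refine isClosed_le ?_ continuous_const
  fun_prop

lemma sec_meas (k : ℕ) (w : Fin (k + 2) → ℝ) (hw : ∀ i, 0 < w i) (u : Eu (k + 2))
    (hu : ‖u‖ = 1) (c : ℝ) (hc : c ^ 2 < qf w u) :
    μH[((k + 1 : ℕ) : ℝ)] (Ell w ∩ {x | inner ℝ u x = c}) =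
      ENNReal.ofReal (Real.sqrt (1 - c ^ 2 / qf w u) ^ (k + 1)) *
        μH[((k + 1 : ℕ) : ℝ)] (Ell w ∩ {x | inner ℝ u x = (0 : ℝ)}) := by
  have hq := qf_pos w hw u hu
  have hlt : 0 < 1 - c ^ 2 / qf w u := by
    rw [sub_pos, div_lt_one hq]; exact hc
  have hr0 : 0 < Real.sqrt (1 - c ^ 2 / qf w u) := Real.sqrt_pos.2 hlt
  rw [sec_eq w hw u hu c hc]
  have hiso : Isometry (fun y : Eu (k + 2) => cen w u c + y) := isometry_add_left _
  rw [hiso.hausdorffMeasure_image (Or.inl (by positivity)),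
    Measure.hausdorffMeasure_smul₀ (by positivity) hr0.ne', NNReal.rpow_natCast]
  have : (‖Real.sqrt (1 - c ^ 2 / qf w u)‖₊ ^ (k + 1) : ℝ≥0) =
      (Real.sqrt (1 - c ^ 2 / qf w u) ^ (k + 1)).toNNReal := by
    rw [Real.toNNReal_pow hr0.le, Real.nnnorm_of_nonneg hr0.le,
      ← Real.toNNReal_of_nonneg hr0.le]
  rw [this]
  rfl

/-- The one-dimensional integral. -/
noncomputable def JJ (k : ℕ) : ℝ≥0∞ := ∫⁻ s : ℝ, ENNReal.ofReal (Real.sqrt (1 - s ^ 2) ^ (k + 1))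

lemma JJ_scale (k : ℕ) (q : ℝ) (hq : 0 < q) :
    ∫⁻ t : ℝ, ENNReal.ofReal (Real.sqrt (1 - t ^ 2 / q) ^ (k + 1)) =
      ENNReal.ofReal (Real.sqrt q) * JJ k := by
  have hs : 0 < Real.sqrt q := Real.sqrt_pos.2 hq
  have hsi : (Real.sqrt q)⁻¹ ≠ 0 := (inv_pos.2 hs).ne'
  have hm : Measurable fun s : ℝ => ENNReal.ofReal (Real.sqrt (1 - s ^ 2) ^ (k + 1)) := by
    fun_prop
  have h1 : ∀ t : ℝ, ENNReal.ofReal (Real.sqrt (1 - t ^ 2 / q) ^ (k + 1)) =
      (fun s : ℝ => ENNReal.ofReal (Real.sqrt (1 - s ^ 2) ^ (k + 1))) ((Real.sqrt q)⁻¹ * t) := by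
    intro t
    have : ((Real.sqrt q)⁻¹ * t) ^ 2 = t ^ 2 / q := by
      rw [mul_pow, inv_pow, Real.sq_sqrt hq.le]
      field_simp
    simp only [this]
  rw [lintegral_congr h1, ← lintegral_map hm (measurable_const_mul _),
    Real.map_volume_mul_left hsi, lintegral_smul_measure]
  rw [inv_inv, abs_of_pos hs]
  rfl

lemma JJ_ne_zero (k : ℕ) : JJ k ≠ 0 := by
  have h1 : ∫⁻ s in Icc (-(1 / 2) : ℝ) (1 / 2), ENNReal.ofReal ((1 / 2) ^ (k + 1)) ≤ JJ k := by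
    refine (setLIntegral_mono' measurableSet_Icc ?_).trans (setLIntegral_le_lintegral _ _)
    intro s hs
    refine ENNReal.ofReal_le_ofReal ?_
    refine pow_le_pow_left₀ (by norm_num) ?_ _
    refine Real.le_sqrt_of_sq_le ?_
    nlinarith [hs.1, hs.2]
  have h2 : 0 < ∫⁻ s in Icc (-(1 / 2) : ℝ) (1 / 2), ENNReal.ofReal ((1 / 2) ^ (k + 1)) := by
    rw [setLIntegral_const, Real.volume_Icc]
    refine ENNReal.mul_pos ?_ ?_
    · exact (ENNReal.ofReal_pos.2 (by positivity)).ne'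
    · exact (ENNReal.ofReal_pos.2 (by norm_num)).ne'
  exact (h2.trans_le h1).ne'

lemma JJ_ne_top (k : ℕ) : JJ k ≠ ∞ := by
  have h1 : JJ k ≤ ∫⁻ s : ℝ, (Icc (-1 : ℝ) 1).indicator (fun _ => (1 : ℝ≥0∞)) s := by
    refine lintegral_mono fun s => ?_
    by_cases hs : s ∈ Icc (-1 : ℝ) 1
    · rw [indicator_of_mem hs]
      refine ENNReal.ofReal_le_one.2 ?_
      refine pow_le_one₀ (Real.sqrt_nonneg _) ?_
      rw [Real.sqrt_le_one]
      nlinarith [sq_nonneg s]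
    · rw [indicator_of_notMem hs]
      have h3 : 1 < s ^ 2 := by
        rw [mem_Icc, not_and_or, not_le, not_le] at hs
        rcases hs with hs | hs <;> nlinarith
      rw [Real.sqrt_eq_zero_of_nonpos (by linarith)]
      simp
  rw [lintegral_indicator measurableSet_Icc, setLIntegral_const, Real.volume_Icc] at h1
  exact ne_top_of_le_ne_top (by simp [ENNReal.ofReal_ne_top]) h1

lemma central (k : ℕ) (w w' : Fin (k + 2) → ℝ) (hw : ∀ i, 0 < w i) (hw' : ∀ i, 0 < w' i)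
    (hv : volume (Ell w) = volume (Ell w')) (u : Eu (k + 2)) (hu : ‖u‖ = 1) :
    ENNReal.ofReal (Real.sqrt (qf w u)) *
        μH[((k + 1 : ℕ) : ℝ)] (Ell w ∩ {x | inner ℝ u x = (0 : ℝ)}) =
      ENNReal.ofReal (Real.sqrt (qf w' u)) *
        μH[((k + 1 : ℕ) : ℝ)] (Ell w' ∩ {x | inner ℝ u x = (0 : ℝ)}) := by
  obtain ⟨κ, -, -, hκ⟩ := fubini k u hu
  have key : ∀ v : Fin (k + 2) → ℝ, (∀ i, 0 < v i) → κ * volume (Ell v) =
      (ENNReal.ofReal (Real.sqrt (qf v u)) *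
        μH[((k + 1 : ℕ) : ℝ)] (Ell v ∩ {x | inner ℝ u x = (0 : ℝ)})) * JJ k := by
    intro v hv0
    have hq := qf_pos v hv0 u hu
    rw [hκ _ (isClosed_Ell v).measurableSet]
    have hae : ∀ᵐ t : ℝ, t ^ 2 ≠ qf v u := by
      have hfin : ({t : ℝ | ¬ t ^ 2 ≠ qf v u}).Finite := by
        refine Set.Finite.subset (Set.toFinite {Real.sqrt (qf v u), -Real.sqrt (qf v u)}) ?_
        intro t ht
        have ht' : t ^ 2 = qf v u := not_not.1 ht
        have h3 : t ^ 2 = Real.sqrt (qf v u) ^ 2 := by rw [ht', Real.sq_sqrt hq.le]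
        rcases sq_eq_sq_iff_eq_or_eq_neg.1 h3 with h | h
        · exact Or.inl h
        · exact Or.inr h
      exact hfin.measure_zero _
    have h1 : ∫⁻ t : ℝ, μH[((k + 1 : ℕ) : ℝ)] (Ell v ∩ {x | inner ℝ u x = t}) =
        ∫⁻ t : ℝ, ENNReal.ofReal (Real.sqrt (1 - t ^ 2 / qf v u) ^ (k + 1)) *
          μH[((k + 1 : ℕ) : ℝ)] (Ell v ∩ {x | inner ℝ u x = (0 : ℝ)}) := by
      refine lintegral_congr_ae ?_
      filter_upwards [hae] with t ht
      rcases lt_or_gt_of_ne ht with h | h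
      · exact sec_meas k v hv0 u hu t h
      · rw [sec_empty v hv0 u hu t h, measure_empty]
        have : 1 - t ^ 2 / qf v u ≤ 0 := by
          rw [sub_nonpos, one_le_div hq]; exact h.le
        rw [Real.sqrt_eq_zero_of_nonpos this]
        simp
    rw [h1, lintegral_mul_const _ (by fun_prop), JJ_scale k _ hq]
    ring
  have h2 := key w hw
  rw [hv, key w' hw'] at h2
  exact ((ENNReal.mul_left_inj (JJ_ne_zero k) (JJ_ne_top k)).1 h2).symm

end CB3
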