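import Pool.Agent.Lib.MP_cb3f7b_gt.Ins.Supp

set_option autoImplicit false

namespace CB3

open MeasureTheory Set Metric Module Filter Topology
open scoped RealInnerProductSpace ENNReal NNReal Pointwise

lemma wt_pos (k : ℕ) (d : ℝ) (hd : |d| < 1) (i : Fin (k + 2)) :
    1 - |d| ≤ wt k d i ∧ wt k d i ≤ 1 + |d| ∧ 0 < wt k d i := by
  have h1 := abs_le.1 (le_refl |d|)
  have h2 := abs_nonneg d
  have h3 : sn k i = 1 ∨ sn k i = -1 ∨ sn k i = 0 := by
    simp only [sn]
    by_cases h0 : i = 0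
    · left
      subst h0
      simp
    · by_cases h1 : i = 1
      · right; left
        subst h1
        simp
      · right; right
        simp [h0, h1]
  simp only [wt]
  rcases h3 with h | h | h <;> rw [h] <;> refine ⟨?_, ?_, ?_⟩ <;> linarith [h1.1, h1.2]

/-- The coordinate swap. -/
noncomputable def TT (k : ℕ) : Eu (k + 2) ≃ₗᵢ[ℝ] Eu (k + 2) :=
  LinearIsometryEquiv.piLpCongrLeft 2 ℝ ℝ (Equiv.swap 0 1)

lemma TT_apply (k : ℕ) (x : Eu (k + 2)) (i : Fin (k + 2)) : (TT k x) i = x (Equiv.swap 0 1 i) := by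
  simp [TT, LinearIsometryEquiv.piLpCongrLeft_apply]

lemma wt_swap (k : ℕ) (d : ℝ) (i : Fin (k + 2)) : wt k (-d) (Equiv.swap 0 1 i) = wt k d i := by
  have h : sn k (Equiv.swap 0 1 i) = -sn k i := by
    simp only [sn]
    by_cases h0 : i = 0
    · subst h0
      simp
    · by_cases h1 : i = 1
      · subst h1
        simp
      · rw [Equiv.swap_apply_of_ne_of_ne h0 h1]
        simp [h0, h1]
  simp only [wt, h]
  ring

lemma TT_mem (k : ℕ) (d : ℝ) (x : Eu (k + 2)) : TT k x ∈ Ell (wt k (-d)) ↔ x ∈ Ell (wt k d) := by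
  have : ∑ i, (TT k x) i ^ 2 / wt k (-d) i = ∑ i, x i ^ 2 / wt k d i := by
    rw [← Equiv.sum_comp (Equiv.swap 0 1) fun i => (TT k x) i ^ 2 / wt k (-d) i]
    refine Finset.sum_congr rfl fun i _ => ?_
    rw [TT_apply, wt_swap, Equiv.swap_apply_self]
  change (∑ i, (TT k x) i ^ 2 / wt k (-d) i ≤ 1) ↔ (∑ i, x i ^ 2 / wt k d i ≤ 1)
  rw [this]

lemma TT_image (k : ℕ) (d : ℝ) : TT k '' Ell (wt k d) = Ell (wt k (-d)) := by
  ext y
  constructor
  · rintro ⟨x, hx, rfl⟩
    exact (TT_mem k d x).2 hx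
  · intro hy
    refine ⟨(TT k).symm y, ?_, by simp⟩
    rw [← TT_mem k d, LinearIsometryEquiv.apply_symm_apply]
    exact hy

lemma vol_eq (k : ℕ) (d : ℝ) : volume (Ell (wt k d)) = volume (Ell (wt k (-d))) := by
  have h : Ell (wt k d) = TT k ⁻¹' Ell (wt k (-d)) := by
    ext x
    exact (TT_mem k d x).symm
  rw [h]
  exact (TT k).measurePreserving.measure_preimage (isClosed_Ell _).measurableSet.nullMeasurableSet

lemma Ell_convex {n : ℕ} (w : Fin n → ℝ) (hw : ∀ i, 0 < w i) : Convex ℝ (Ell w) := by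
  intro p hp q hq s t hs ht hst
  change ∑ i, (s • p + t • q) i ^ 2 / w i ≤ 1
  have hp' : ∑ i, p i ^ 2 / w i ≤ 1 := hp
  have hq' : ∑ i, q i ^ 2 / w i ≤ 1 := hq
  have h1 : ∀ i, (s • p + t • q) i ^ 2 / w i ≤ s * (p i ^ 2 / w i) + t * (q i ^ 2 / w i) := by
    intro i
    have h2 : s * (p i ^ 2 / w i) + t * (q i ^ 2 / w i) = (s * p i ^ 2 + t * q i ^ 2) / w i := by
      ring
    rw [h2]
    refine div_le_div_of_nonneg_right ?_ (hw i).le
    simp only [PiLp.add_apply, PiLp.smul_apply, smul_eq_mul]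
    have h3 : s * p i ^ 2 + t * q i ^ 2 - (s * p i + t * q i) ^ 2 = s * t * (p i - q i) ^ 2 := by
      have : t = 1 - s := by linarith
      subst this
      ring
    have : 0 ≤ s * t * (p i - q i) ^ 2 := by positivity
    linarith
  calc ∑ i, (s • p + t • q) i ^ 2 / w i ≤ ∑ i, (s * (p i ^ 2 / w i) + t * (q i ^ 2 / w i)) :=
        Finset.sum_le_sum fun i _ => h1 i
    _ = s * ∑ i, p i ^ 2 / w i + t * ∑ i, q i ^ 2 / w i := by
        rw [Finset.sum_add_distrib, ← Finset.mul_sum, ← Finset.mul_sum]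
    _ ≤ s * 1 + t * 1 := add_le_add (mul_le_mul_of_nonneg_left hp' hs)
        (mul_le_mul_of_nonneg_left hq' ht)
    _ = 1 := by rw [mul_one, mul_one, hst]

lemma ball_sub_Ell (k : ℕ) (d e : ℝ) (hd : |d| ≤ e) (he : e < 1) :
    closedBall 0 (1 - e) ⊆ Ell (wt k d) := by
  intro x hx
  rw [mem_closedBall_zero_iff] at hx
  have h0 := abs_nonneg d
  have h1 : ∀ i, x i ^ 2 / wt k d i ≤ x i ^ 2 / (1 - e) := fun i =>
    div_le_div_of_nonneg_left (sq_nonneg _) (by linarith)
      (by linarith [(wt_pos k d (by linarith) i).1])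
  change ∑ i, x i ^ 2 / wt k d i ≤ 1
  refine (Finset.sum_le_sum fun i _ => h1 i).trans ?_
  rw [← Finset.sum_div, ← norm_sq_sum, div_le_one (by linarith)]
  nlinarith [norm_nonneg x]

lemma Ell_sub_ball (k : ℕ) (d e : ℝ) (hd : |d| ≤ e) (he : e < 1) :
    Ell (wt k d) ⊆ closedBall 0 (1 + e) := by
  intro x hx
  have hx' : ∑ i, x i ^ 2 / wt k d i ≤ 1 := hx
  rw [mem_closedBall_zero_iff]
  have h0 := abs_nonneg d
  have h1 : ∀ i, x i ^ 2 ≤ (1 + e) * (x i ^ 2 / wt k d i) := by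
    intro i
    obtain ⟨-, h2, h3⟩ := wt_pos k d (by linarith) i
    rw [mul_div_assoc', le_div_iff₀ h3]
    nlinarith [sq_nonneg (x i)]
  have h2 : ‖x‖ ^ 2 ≤ 1 + e := by
    rw [norm_sq_sum]
    refine (Finset.sum_le_sum fun i _ => h1 i).trans ?_
    rw [← Finset.mul_sum]
    nlinarith
  nlinarith [norm_nonneg x]

lemma Ell_ne (k : ℕ) (d : ℝ) (hd : 0 < d) (hd1 : d < 1) : Ell (wt k d) ≠ Ell (wt k (-d)) := by
  intro h
  have hs : ∀ w : Fin (k + 2) → ℝ, ∑ i, (EuclideanSpace.single (0 : Fin (k + 2)) (Real.sqrt (1 + d)) :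
      Eu (k + 2)) i ^ 2 / w i = (1 + d) / w 0 := by
    intro w
    rw [Finset.sum_eq_single 0]
    · simp only [PiLp.single_apply, if_true]
      rw [Real.sq_sqrt (by linarith)]
    · intro b _ hb
      simp [hb]
    · intro h0
      exact absurd (Finset.mem_univ _) h0
  have h0 : ∀ e : ℝ, wt k e 0 = 1 + e := by
    intro e
    simp [wt, sn]
  have h1 : (EuclideanSpace.single (0 : Fin (k + 2)) (Real.sqrt (1 + d)) : Eu (k + 2)) ∈
      Ell (wt k d) := by
    change ∑ i, _ ≤ (1 : ℝ)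
    rw [hs, h0, div_self (by linarith)]
  rw [h] at h1
  have h2 : ∑ i, (EuclideanSpace.single (0 : Fin (k + 2)) (Real.sqrt (1 + d)) :
      Eu (k + 2)) i ^ 2 / wt k (-d) i ≤ 1 := h1
  rw [hs, h0, div_le_one (by linarith)] at h2
  linarith

/-- Sections by the supporting hyperplanes with unit normal. -/
lemma sec_unit (k : ℕ) (d : ℝ) (hd : |d| < 1) (u : Eu (k + 2)) (hu : ‖u‖ = 1) :
    μH[((k + 1 : ℕ) : ℝ)] (Ell (wt k d) ∩ {x | inner ℝ u x = psi k (d * qq u)}) =
      μH[((k + 1 : ℕ) : ℝ)] (Ell (wt k (-d)) ∩ {x | inner ℝ u x = psi k (d * qq u)}) := by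
  have hq := qq_abs u
  rw [hu, one_pow] at hq
  have hδ : |d * qq u| < 1 := by
    rw [abs_mul]
    calc |d| * |qq u| ≤ |d| * 1 := mul_le_mul_of_nonneg_left hq (abs_nonneg d)
      _ < 1 := by rw [mul_one]; exact hd
  obtain ⟨ha, hb⟩ := abs_lt.1 hδ
  obtain ⟨h1, h2, h3⟩ := sg_key k (d * qq u) ha hb
  have hpsi : psi k (d * qq u) ^ 2 = sg k (d * qq u) := Real.sq_sqrt (sg_pos k _ ha hb).le
  have e1 : qf (wt k d) u = 1 + d * qq u := qf_wt d u hu
  have e2 : qf (wt k (-d)) u = 1 - d * qq u := by rw [qf_wt (-d) u hu]; ring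
  refine sec_eq_sec k _ _ (fun i => (wt_pos k d hd i).2.2)
    (fun i => (wt_pos k (-d) (by rwa [abs_neg]) i).2.2) (vol_eq k d) u hu _ ?_ ?_ ?_
  · rw [hpsi, e1]; exact h1
  · rw [hpsi, e2]; exact h2
  · rw [hpsi, e1, e2]; exact h3

lemma main (k : ℕ) (ε : ℝ) (hε : 0 < ε) :
    ∃ (K : Set (Eu (k + 2))) (w : Fin (k + 2) → ℝ) (T : Eu (k + 2) ≃ₗᵢ[ℝ] Eu (k + 2)),
      Convex ℝ K ∧ IsCompact K ∧ (interior K).Nonempty ∧ (∀ x ∈ K, -x ∈ K) ∧
      closedBall 0 ((1 - ε) / Real.sqrt (k + 2 : ℕ)) ⊆ K ∧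
      K ⊆ closedBall 0 ((1 + ε) / Real.sqrt (k + 2 : ℕ)) ∧
      (∀ i, 0 < w i) ∧ Ell w ≠ T '' Ell w ∧
      Convex ℝ (Ell w) ∧ IsCompact (Ell w) ∧
      closedBall 0 (1 - ε) ⊆ Ell w ∧ Ell w ⊆ closedBall 0 (1 + ε) ∧
      K ⊆ interior (Ell w) ∩ interior (T '' Ell w) ∧
      ∀ u : Eu (k + 2), u ≠ 0 → ∀ c : ℝ,
        (∀ x ∈ K, inner ℝ u x ≤ c) → (∃ x ∈ K, inner ℝ u x = c) →
        μH[((k + 1 : ℕ) : ℝ)] (Ell w ∩ {x | inner ℝ u x = c}) =
          μH[((k + 1 : ℕ) : ℝ)] (T '' Ell w ∩ {x | inner ℝ u x = c}) := by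
  obtain ⟨r, hr, L, hL, hT⟩ := taylor2 (psi k) (psi_contDiffAt k)
  set e := min ε (1 / 10) with he
  have he0 : 0 < e := lt_min hε (by norm_num)
  have he1 : e ≤ 1 / 10 := min_le_right _ _
  have hee : e ≤ ε := min_le_left _ _
  have hn0 : (0 : ℝ) < ((k + 2 : ℕ) : ℝ) := by positivity
  have hsn : 0 < Real.sqrt (k + 2 : ℕ) := Real.sqrt_pos.2 hn0
  have hp0 : psi k 0 = 1 / Real.sqrt (k + 2 : ℕ) := by
    rw [psi, sg_zero, Real.sqrt_div' _ (by positivity), Real.sqrt_one]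
    push_cast
    rfl
  have hcont : ∀ᶠ s in 𝓝 (0 : ℝ), psi k s ∈ Ioo ((1 - e) / Real.sqrt (k + 2 : ℕ))
      ((1 + e) / Real.sqrt (k + 2 : ℕ)) := by
    refine (psi_contDiffAt k).continuousAt.eventually_mem (Ioo_mem_nhds ?_ ?_)
    · rw [hp0]; exact div_lt_div_of_pos_right (by linarith) hsn
    · rw [hp0]; exact div_lt_div_of_pos_right (by linarith) hsn
  obtain ⟨ρ, hρ, hρc⟩ := Metric.eventually_nhds_iff.1 hcont
  set g := (1 - e) / Real.sqrt (k + 2 : ℕ) with hg
  have hg0 : 0 < g := div_pos (by linarith) hsn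
  obtain ⟨d, hd0, hdr, hdρ, hde, hds⟩ : ∃ d : ℝ, 0 < d ∧ d ≤ r ∧ d < ρ ∧ d ≤ e ∧
      2 * L * d + 4 * L * d ^ 2 ≤ g / 2 := by
    refine ⟨min (min r (ρ / 2)) (min e (g / (16 * (L + 1)))), ?_, ?_, ?_, ?_, ?_⟩
    · refine lt_min (lt_min hr (by linarith)) (lt_min he0 ?_)
      positivity
    · exact (min_le_left _ _).trans (min_le_left _ _)
    · refine lt_of_le_of_lt ((min_le_left _ _).trans (min_le_right _ _)) (by linarith)
    · exact (min_le_right _ _).trans (min_le_left _ _)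
    · set m := min (min r (ρ / 2)) (min e (g / (16 * (L + 1)))) with hm
      have hm0 : 0 < m := by
        refine lt_min (lt_min hr (by linarith)) (lt_min he0 ?_)
        positivity
      have hm1 : m ≤ 1 := ((min_le_right _ _).trans (min_le_left _ _)).trans (by linarith)
      have hm2 : m ≤ g / (16 * (L + 1)) := (min_le_right _ _).trans (min_le_right _ _)
      rw [le_div_iff₀ (by positivity)] at hm2
      have h1 : m ^ 2 ≤ m := by nlinarith
      have h2 : L * m ^ 2 ≤ L * m := mul_le_mul_of_nonneg_left h1 hL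
      nlinarith
  have hab : |d| = d := abs_of_pos hd0
  have hd1 : |d| < 1 := by rw [hab]; linarith
  have hin : ∀ z : Eu (k + 2), ‖z‖ = 1 → d * qq z ∈ Icc (-d) d := by
    intro z hz
    have h1 := qq_abs z
    rw [hz, one_pow, abs_le] at h1
    constructor <;> nlinarith
  have hbd : ∀ s ∈ Icc (-d) d, g ≤ psi k s ∧ psi k s ≤ (1 + e) / Real.sqrt (k + 2 : ℕ) := by
    intro s hs
    have : dist s 0 < ρ := by
      rw [Real.dist_eq, sub_zero, abs_lt]
      exact ⟨by linarith [hs.1], by linarith [hs.2]⟩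
    exact ⟨(hρc this).1.le, (hρc this).2.le⟩
  have hmem : ∀ u : Eu (k + 2), ‖u‖ = 1 → pt k d u ∈ KB k d := fun u hu =>
    pt_mem k d r L g hd0 hdr hL hT (fun s hs => (hbd s hs).1) hds u hu
  have hsub : KB k d ⊆ closedBall 0 ((1 + e) / Real.sqrt (k + 2 : ℕ)) :=
    KB_sub k d _ (by positivity) fun v hv => (hbd _ (hin v hv)).2
  have hsup : closedBall 0 g ⊆ KB k d := ball_sub k d g fun v hv => (hbd _ (hin v hv)).1
  have hsmall : (1 + e) / Real.sqrt (k + 2 : ℕ) < 1 - e := by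
    rw [div_lt_iff₀ hsn]
    have h2 : (1.4 : ℝ) ≤ Real.sqrt (k + 2 : ℕ) := by
      refine Real.le_sqrt_of_sq_le ?_
      push_cast
      have : (0 : ℝ) ≤ k := Nat.cast_nonneg k
      norm_num
      linarith
    nlinarith
  have hint : ∀ f : ℝ, |f| ≤ e → KB k d ⊆ interior (Ell (wt k f)) := by
    intro f hf
    have h1 : ball (0 : Eu (k + 2)) (1 - e) ⊆ interior (Ell (wt k f)) :=
      interior_maximal (ball_subset_closedBall.trans (ball_sub_Ell k f e hf (by linarith)))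
        isOpen_ball
    refine hsub.trans ((closedBall_subset_ball hsmall).trans h1)
  refine ⟨KB k d, wt k d, TT k, KB_convex k d, ?_, ?_, ?_, ?_, ?_,
    fun i => (wt_pos k d hd1 i).2.2, ?_, Ell_convex _ fun i => (wt_pos k d hd1 i).2.2, ?_, ?_, ?_,
    ?_, ?_⟩
  · exact Metric.isCompact_of_isClosed_isBounded (KB_closed k d) (isBounded_closedBall.subset hsub)
  · refine ⟨0, interior_mono hsup ?_⟩
    exact mem_interior_iff_mem_nhds.2 (closedBall_mem_nhds _ hg0)
  · intro x hx v hv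
    have := hx (-v) (by rwa [norm_neg])
    rw [inner_neg_left] at this
    rw [inner_neg_right]
    have e2 : qq (-v) = qq v := by simp [qq]
    rwa [e2] at this
  · refine (closedBall_subset_closedBall ?_).trans hsup
    exact div_le_div_of_nonneg_right (by linarith) hsn.le
  · refine hsub.trans (closedBall_subset_closedBall ?_)
    exact div_le_div_of_nonneg_right (by linarith) hsn.le
  · rw [TT_image]
    exact Ell_ne k d hd0 (by linarith)
  · exact Metric.isCompact_of_isClosed_isBounded (isClosed_Ell _)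
      (isBounded_closedBall.subset (Ell_sub_ball k d e (by rw [hab]; exact hde) (by linarith)))
  · exact (closedBall_subset_closedBall (by linarith)).trans
      (ball_sub_Ell k d e (by rw [hab]; exact hde) (by linarith))
  · exact (Ell_sub_ball k d e (by rw [hab]; exact hde) (by linarith)).trans
      (closedBall_subset_closedBall (by linarith))
  · refine subset_inter (hint d (by rw [hab]; exact hde)) ?_
    rw [TT_image]
    exact hint (-d) (by rw [abs_neg, hab]; exact hde)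
  · intro u hu0 c hle hex
    rw [TT_image]
    have hn : 0 < ‖u‖ := norm_pos_iff.2 hu0
    set v := ‖u‖⁻¹ • u with hv
    have hv1 : ‖v‖ = 1 := by rw [hv, norm_smul, norm_inv, norm_norm, inv_mul_cancel₀ hn.ne']
    have huv : u = ‖u‖ • v := by rw [hv, smul_smul, mul_inv_cancel₀ hn.ne', one_smul]
    have hc : c = ‖u‖ * psi k (d * qq v) := by
      refine le_antisymm ?_ ?_
      · obtain ⟨x, hx, hxc⟩ := hex
        rw [← hxc, huv, real_inner_smul_left]
        rw [norm_smul, norm_norm, hv1, mul_one]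
        exact mul_le_mul_of_nonneg_left (hx v hv1) hn.le
      · have := hle _ (hmem v hv1)
        rw [huv, real_inner_smul_left, inner_pt_self k d v hv1] at this
        exact this
    have hset : {x : Eu (k + 2) | inner ℝ u x = c} = {x | inner ℝ v x = psi k (d * qq v)} := by
      ext x
      simp only [mem_ofPred_eq]
      constructor
      · intro h
        have : inner ℝ v x = ‖u‖⁻¹ * c := by rw [hv, real_inner_smul_left, h]
        rw [this, hc]
        field_simp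
      · intro h
        have : inner ℝ u x = ‖u‖ * inner ℝ v x := by
          conv_lhs => rw [huv]
          rw [real_inner_smul_left]
        rw [this, h, hc]
    rw [hset]
    exact sec_unit k d hd1 v hv1

end CB3
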