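import Pool.Agent.Lib.MP_cb3f7b_gt.Ins.Sec

set_option autoImplicit false

namespace CB3

open MeasureTheory Set Metric Module
open scoped RealInnerProductSpace ENNReal NNReal Pointwise

lemma fubini (k : ℕ) (u : Eu (k + 2)) (hu : ‖u‖ = 1) :
    ∃ κ : ℝ≥0∞, κ ≠ 0 ∧ κ ≠ ∞ ∧ ∀ S : Set (Eu (k + 2)), MeasurableSet S →
      κ * volume S = ∫⁻ t : ℝ, μH[((k + 1 : ℕ) : ℝ)] (S ∩ {x | inner ℝ u x = t}) := by
  have hu0 : u ≠ 0 := by
    intro h
    rw [h, norm_zero] at hu
    exact zero_ne_one hu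
  have : Fact (finrank ℝ (Eu (k + 2)) = (k + 1) + 1) := ⟨by simp⟩
  set F : Submodule ℝ (Eu (k + 2)) := (ℝ ∙ u)ᗮ with hF
  have hdim : finrank ℝ F = k + 1 := Submodule.finrank_orthogonal_span_singleton hu0
  have hmem : ∀ y : Eu (k + 2), y ∈ F ↔ inner ℝ u y = (0 : ℝ) := by
    intro y
    rw [hF, Submodule.mem_orthogonal_singleton_iff_inner_right]
  let L : (ℝ × F) →ₗ[ℝ] Eu (k + 2) :=
    (LinearMap.toSpanSingleton ℝ (Eu (k + 2)) u).coprod F.subtype
  have hL : ∀ t (y : F), L (t, y) = t • u + (y : Eu (k + 2)) := by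
    intro t y
    simp [L]
  have hinn : ∀ t (y : F), inner ℝ u (L (t, y)) = t := by
    intro t y
    rw [hL, inner_add_right, inner_smul_right, (hmem y).1 y.2, real_inner_self_eq_norm_sq, hu]
    ring
  have hinj : Function.Injective L := by
    rintro ⟨t, y⟩ ⟨s, z⟩ h
    have h1 : t = s := by rw [← hinn t y, h, hinn]
    subst h1
    rw [hL, hL, add_right_inj] at h
    rw [Subtype.ext h]
  have hfr : finrank ℝ (ℝ × F) = finrank ℝ (Eu (k + 2)) := by
    rw [finrank_prod, hdim]; simp; ring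
  let e : (ℝ × F) ≃L[ℝ] Eu (k + 2) :=
    (LinearEquiv.ofInjectiveOfFinrankEq L hinj hfr).toContinuousLinearEquiv
  have he : ∀ t (y : F), e (t, y) = t • u + (y : Eu (k + 2)) := fun t y => hL t y
  have hH : Measure.IsAddHaarMeasure (μH[((k + 1 : ℕ) : ℝ)] : Measure F) := by
    rw [← hdim]; infer_instance
  let ν : Measure (ℝ × F) := (volume : Measure ℝ).prod (μH[((k + 1 : ℕ) : ℝ)] : Measure F)
  have h1 : ν.map e = Measure.addHaarScalarFactor (ν.map e) volume • (volume : Measure (Eu (k + 2))) :=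
    Measure.isAddLeftInvariant_eq_smul _ _
  have hpos : 0 < Measure.addHaarScalarFactor (ν.map e) (volume : Measure (Eu (k + 2))) :=
    Measure.addHaarScalarFactor_pos_of_isAddHaarMeasure _ _
  refine ⟨(Measure.addHaarScalarFactor (ν.map e) (volume : Measure (Eu (k + 2))) : ℝ≥0∞),
    by exact_mod_cast hpos.ne', ENNReal.coe_ne_top, ?_⟩
  intro S hS
  have h2 : (ν.map e) S = ↑(Measure.addHaarScalarFactor (ν.map e) (volume : Measure (Eu (k + 2))))
      * volume S := by
    conv_lhs => rw [h1]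
    rfl
  rw [← h2, Measure.map_apply e.continuous.measurable hS,
    Measure.prod_apply (e.continuous.measurable hS)]
  refine lintegral_congr fun t => ?_
  have hiso : Isometry (fun y : F => t • u + (y : Eu (k + 2))) :=
    (isometry_add_left (t • u)).comp F.subtypeₗᵢ.isometry
  rw [← hiso.hausdorffMeasure_image (Or.inl (by positivity))]
  congr 1
  ext x
  constructor
  · rintro ⟨y, hy, rfl⟩
    refine ⟨by have := hy; simpa [he] using this, ?_⟩
    have := hinn t y
    rw [hL] at this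
    exact this
  · rintro ⟨hx, hxt⟩
    have hxt' : inner ℝ u x = t := hxt
    have hy : x - t • u ∈ F := by
      rw [hmem, inner_sub_right, inner_smul_right, hxt', real_inner_self_eq_norm_sq, hu]
      ring
    refine ⟨⟨x - t • u, hy⟩, ?_, by simp⟩
    change e (t, ⟨x - t • u, hy⟩) ∈ S
    rw [he]
    simpa using hx

end CB3
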