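import Pool.Agent.Lib.MP_cb3f7b_gt.Ins.Cen

set_option autoImplicit false

namespace CB3

open MeasureTheory Set Metric Module Filter Topology
open scoped RealInnerProductSpace ENNReal NNReal Pointwise

lemma sec_eq_sec (k : ℕ) (w w' : Fin (k + 2) → ℝ) (hw : ∀ i, 0 < w i) (hw' : ∀ i, 0 < w' i)
    (hv : volume (Ell w) = volume (Ell w')) (u : Eu (k + 2)) (hu : ‖u‖ = 1) (c : ℝ)
    (h1 : c ^ 2 < qf w u) (h2 : c ^ 2 < qf w' u)
    (h3 : (1 - c ^ 2 / qf w u) ^ (k + 1) * qf w' u = (1 - c ^ 2 / qf w' u) ^ (k + 1) * qf w u) :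
    μH[((k + 1 : ℕ) : ℝ)] (Ell w ∩ {x | inner ℝ u x = c}) =
      μH[((k + 1 : ℕ) : ℝ)] (Ell w' ∩ {x | inner ℝ u x = c}) := by
  have hA := qf_pos w hw u hu
  have hB := qf_pos w' hw' u hu
  have hcen := central k w w' hw hw' hv u hu
  rw [sec_meas k w hw u hu c h1, sec_meas k w' hw' u hu c h2]
  set A := qf w u
  set B := qf w' u
  have ha : 0 ≤ 1 - c ^ 2 / A := by rw [sub_nonneg, div_le_one hA]; exact h1.le
  have hb : 0 ≤ 1 - c ^ 2 / B := by rw [sub_nonneg, div_le_one hB]; exact h2.le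
  set α := Real.sqrt (1 - c ^ 2 / A) ^ (k + 1) with hα
  set β := Real.sqrt (1 - c ^ 2 / B) ^ (k + 1) with hβ
  have hα2 : α ^ 2 = (1 - c ^ 2 / A) ^ (k + 1) := by
    rw [hα, ← pow_mul, mul_comm (k + 1) 2, pow_mul, Real.sq_sqrt ha]
  have hβ2 : β ^ 2 = (1 - c ^ 2 / B) ^ (k + 1) := by
    rw [hβ, ← pow_mul, mul_comm (k + 1) 2, pow_mul, Real.sq_sqrt hb]
  have hα0 : 0 ≤ α := by positivity
  have hβ0 : 0 ≤ β := by positivity
  have hab : α * Real.sqrt B = β * Real.sqrt A := by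
    rw [← sq_eq_sq₀ (by positivity) (by positivity), mul_pow, mul_pow, Real.sq_sqrt hA.le,
      Real.sq_sqrt hB.le, hα2, hβ2]
    exact h3
  have hsA : ENNReal.ofReal (Real.sqrt A) ≠ 0 := (ENNReal.ofReal_pos.2 (Real.sqrt_pos.2 hA)).ne'
  refine (ENNReal.mul_right_inj hsA ENNReal.ofReal_ne_top).1 ?_
  calc ENNReal.ofReal (Real.sqrt A) * (ENNReal.ofReal α *
        μH[((k + 1 : ℕ) : ℝ)] (Ell w ∩ {x | inner ℝ u x = (0 : ℝ)}))
      = ENNReal.ofReal α * (ENNReal.ofReal (Real.sqrt A) *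
        μH[((k + 1 : ℕ) : ℝ)] (Ell w ∩ {x | inner ℝ u x = (0 : ℝ)})) := by ring
    _ = ENNReal.ofReal α * (ENNReal.ofReal (Real.sqrt B) *
        μH[((k + 1 : ℕ) : ℝ)] (Ell w' ∩ {x | inner ℝ u x = (0 : ℝ)})) := by rw [hcen]
    _ = ENNReal.ofReal (α * Real.sqrt B) *
        μH[((k + 1 : ℕ) : ℝ)] (Ell w' ∩ {x | inner ℝ u x = (0 : ℝ)}) := by
          rw [ENNReal.ofReal_mul hα0]; ring
    _ = ENNReal.ofReal (Real.sqrt A) * (ENNReal.ofReal β *
        μH[((k + 1 : ℕ) : ℝ)] (Ell w' ∩ {x | inner ℝ u x = (0 : ℝ)})) := by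
          rw [hab, ENNReal.ofReal_mul hβ0]; ring

/-- The ratio of the reduced sections. -/
noncomputable def tau (k : ℕ) (δ : ℝ) : ℝ := ((1 + δ) / (1 - δ)) ^ (1 / (k + 1 : ℝ))

/-- Square of the distance at which the sections of the two ellipsoids agree. -/
noncomputable def sg (k : ℕ) (δ : ℝ) : ℝ := (1 + δ) / ∑ j ∈ Finset.range (k + 2), tau k δ ^ j

/-- The distance at which the sections of the two ellipsoids agree. -/
noncomputable def psi (k : ℕ) (δ : ℝ) : ℝ := Real.sqrt (sg k δ)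

lemma tau_pos (k : ℕ) (δ : ℝ) (h1 : -1 < δ) (h2 : δ < 1) : 0 < tau k δ :=
  Real.rpow_pos_of_pos (div_pos (by linarith) (by linarith)) _

lemma tau_pow (k : ℕ) (δ : ℝ) (h1 : -1 < δ) (h2 : δ < 1) :
    tau k δ ^ (k + 1) = (1 + δ) / (1 - δ) := by
  have h0 : 0 ≤ (1 + δ) / (1 - δ) := (div_pos (by linarith) (by linarith)).le
  rw [tau, ← Real.rpow_natCast, ← Real.rpow_mul h0]
  have : (1 / (k + 1 : ℝ)) * ((k + 1 : ℕ) : ℝ) = 1 := by push_cast; field_simp
  rw [this, Real.rpow_one]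

lemma sum_pos' (k : ℕ) (t : ℝ) (ht : 0 < t) : 0 < ∑ j ∈ Finset.range (k + 2), t ^ j :=
  Finset.sum_pos (fun j _ => pow_pos ht j) ⟨0, by simp⟩

lemma sg_pos (k : ℕ) (δ : ℝ) (h1 : -1 < δ) (h2 : δ < 1) : 0 < sg k δ :=
  div_pos (by linarith) (sum_pos' k _ (tau_pos k δ h1 h2))

lemma sg_zero (k : ℕ) : sg k 0 = 1 / (k + 2 : ℝ) := by
  have : tau k 0 = 1 := by simp [tau]
  rw [sg, this]
  simp

/-- The algebra behind the equality of the sections. -/
lemma sg_key (k : ℕ) (δ : ℝ) (h1 : -1 < δ) (h2 : δ < 1) :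
    sg k δ < 1 + δ ∧ sg k δ < 1 - δ ∧
    (1 - sg k δ / (1 + δ)) ^ (k + 1) * (1 - δ) = (1 - sg k δ / (1 - δ)) ^ (k + 1) * (1 + δ) := by
  have ht := tau_pos k δ h1 h2
  have hp := tau_pow k δ h1 h2
  set t := tau k δ with htd
  have hA : 0 < 1 + δ := by linarith
  have hB : 0 < 1 - δ := by linarith
  set S' := ∑ j ∈ Finset.range (k + 1), t ^ j with hS'
  have hS'0 : 0 < S' := Finset.sum_pos (fun j _ => pow_pos ht j) ⟨0, by simp⟩
  have hS : ∑ j ∈ Finset.range (k + 2), t ^ j = S' + (1 + δ) / (1 - δ) := by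
    rw [Finset.sum_range_succ, hp]
  have hS2 : ∑ j ∈ Finset.range (k + 2), t ^ j = 1 + t * S' := by
    rw [Finset.sum_range_succ', hS', Finset.mul_sum, pow_zero, add_comm]
    congr 1
    exact Finset.sum_congr rfl fun j _ => by ring
  have hsg : sg k δ = (1 + δ) / (1 + t * S') := by rw [sg, ← htd, hS2]
  have hden : 0 < 1 + t * S' := by positivity
  have hr : 0 < (1 + δ) / (1 - δ) := div_pos hA hB
  have e1 : 1 - sg k δ / (1 + δ) = t * (S' / (1 + t * S')) := by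
    rw [hsg]; field_simp; ring
  have e3 : S' + (1 + δ) / (1 - δ) = 1 + t * S' := by rw [← hS, hS2]
  have e2 : 1 - sg k δ / (1 - δ) = S' / (1 + t * S') := by
    have : sg k δ / (1 - δ) = ((1 + δ) / (1 - δ)) / (1 + t * S') := by rw [hsg]; field_simp
    rw [this, eq_sub_of_add_eq' e3]
    field_simp
    ring
  have hq : 0 < S' / (1 + t * S') := by positivity
  refine ⟨?_, ?_, ?_⟩
  · have : sg k δ / (1 + δ) < 1 := by
      have : 0 < 1 - sg k δ / (1 + δ) := by rw [e1]; positivity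
      linarith
    rwa [div_lt_one hA] at this
  · have : sg k δ / (1 - δ) < 1 := by
      have : 0 < 1 - sg k δ / (1 - δ) := by rw [e2]; positivity
      linarith
    rwa [div_lt_one hB] at this
  · rw [e1, e2, mul_pow, hp]
    field_simp

lemma psi_contDiffAt (k : ℕ) : ContDiffAt ℝ 2 (psi k) 0 := by
  have h1 : ContDiffAt ℝ 2 (fun δ : ℝ => (1 + δ) / (1 - δ)) 0 := by
    refine ContDiffAt.div ?_ ?_ (by norm_num)
    · fun_prop
    · fun_prop
  have h2 : ContDiffAt ℝ 2 (tau k) 0 := by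
    refine ContDiffAt.rpow_const_of_ne h1 (by norm_num)
  have h3 : ContDiffAt ℝ 2 (sg k) 0 := by
    refine ContDiffAt.div (by fun_prop) ?_ ?_
    · exact ContDiffAt.sum fun j _ => h2.pow j
    · exact (sum_pos' k _ (tau_pos k 0 (by norm_num) (by norm_num))).ne'
  exact h3.sqrt (sg_pos k 0 (by norm_num) (by norm_num)).ne'

/-- Second order lower Taylor bound near zero. -/
lemma taylor2 (f : ℝ → ℝ) (hf : ContDiffAt ℝ 2 f 0) :
    ∃ r : ℝ, 0 < r ∧ ∃ L : ℝ, 0 ≤ L ∧ ∀ s ∈ Icc (-r) r, |deriv f s| ≤ L ∧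
      ∀ t ∈ Icc (-r) r, f s + deriv f s * (t - s) - L * (t - s) ^ 2 ≤ f t := by
  have h1 : ContDiffAt ℝ 1 (deriv f) 0 := by
    have : ContDiffAt ℝ 1 (fderiv ℝ f) 0 := hf.fderiv_right (by norm_num)
    exact this.clm_apply contDiffAt_const
  obtain ⟨K, T, hT, hK⟩ := h1.exists_lipschitzOnWith
  have h2 : ∀ᶠ y in 𝓝 (0 : ℝ), DifferentiableAt ℝ f y := by
    filter_upwards [hf.eventually (by simp)] with y hy
    exact hy.differentiableAt (by norm_num)
  obtain ⟨r, hr, hball⟩ := Metric.eventually_nhds_iff.1 (h2.and (Filter.eventually_mem_set.2 hT))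
  have hsub : ∀ s ∈ Icc (-(r / 2)) (r / 2), DifferentiableAt ℝ f s ∧ s ∈ T := by
    intro s hs
    refine hball ?_
    rw [Real.dist_eq, sub_zero, abs_lt]
    exact ⟨by linarith [hs.1], by linarith [hs.2]⟩
  have hLip : ∀ s ∈ Icc (-(r / 2)) (r / 2), ∀ t ∈ Icc (-(r / 2)) (r / 2),
      |deriv f t - deriv f s| ≤ K * |t - s| := by
    intro s hs t ht
    have := hK.dist_le_mul t (hsub t ht).2 s (hsub s hs).2
    rwa [Real.dist_eq, Real.dist_eq] at this
  refine ⟨r / 2, by positivity, max K (|deriv f 0| + K * (r / 2)), ?_, ?_⟩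
  · exact le_max_of_le_left K.2
  intro s hs
  have h0 : (0 : ℝ) ∈ Icc (-(r / 2)) (r / 2) := ⟨by linarith, by linarith⟩
  refine ⟨?_, ?_⟩
  · refine le_max_of_le_right ?_
    have h3 := hLip 0 h0 s hs
    have h4 : |s - 0| ≤ r / 2 := by rw [sub_zero, abs_le]; exact hs
    have h5 : |deriv f s| ≤ |deriv f 0| + |deriv f s - deriv f 0| := by
      have := abs_add_le (deriv f 0) (deriv f s - deriv f 0)
      simpa using this
    have h6 : (K : ℝ) * |s - 0| ≤ K * (r / 2) := mul_le_mul_of_nonneg_left h4 K.2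
    linarith
  · intro t ht
    have hseg : ∀ x ∈ uIcc s t, x ∈ Icc (-(r / 2)) (r / 2) := by
      intro x hx
      exact (uIcc_subset_Icc hs ht) hx
    have hmv : ‖(f t - deriv f s * t) - (f s - deriv f s * s)‖ ≤ (K * |t - s|) * ‖t - s‖ := by
      refine Convex.norm_image_sub_le_of_norm_hasDerivWithin_le
        (f := fun x => f x - deriv f s * x) (f' := fun x => deriv f x - deriv f s)
        (s := uIcc s t) ?_ ?_ (convex_uIcc s t) left_mem_uIcc right_mem_uIcc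
      · intro x hx
        have h3 : HasDerivAt f (deriv f x) x := (hsub x (hseg x hx)).1.hasDerivAt
        have h4 : HasDerivAt (fun y : ℝ => deriv f s * y) (deriv f s) x := by
          simpa using (hasDerivAt_id x).const_mul (deriv f s)
        exact (h3.sub h4).hasDerivWithinAt
      · intro x hx
        rw [Real.norm_eq_abs]
        refine (hLip s hs x (hseg x hx)).trans ?_
        refine mul_le_mul_of_nonneg_left ?_ K.2
        exact abs_sub_left_of_mem_uIcc hx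
    rw [Real.norm_eq_abs, Real.norm_eq_abs] at hmv
    have h3 : (K : ℝ) * |t - s| * |t - s| = K * (t - s) ^ 2 := by
      rw [mul_assoc, abs_mul_abs_self]; ring
    rw [h3] at hmv
    have h4 := (abs_le.1 hmv).1
    have h5 : (K : ℝ) * (t - s) ^ 2 ≤ max (K : ℝ) (|deriv f 0| + K * (r / 2)) * (t - s) ^ 2 :=
      mul_le_mul_of_nonneg_right (le_max_left _ _) (sq_nonneg _)
    nlinarith

end CB3
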