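import Mathlib

set_option autoImplicit false

namespace CB3

open MeasureTheory Set Metric
open scoped RealInnerProductSpace ENNReal NNReal Pointwise

/-- Euclidean space. -/
abbrev Eu (n : ℕ) := EuclideanSpace ℝ (Fin n)

/-- The ellipsoid with squared semiaxes `w i`. -/
def Ell {n : ℕ} (w : Fin n → ℝ) : Set (Eu n) := {x | ∑ i, x i ^ 2 / w i ≤ 1}

/-- The square of the support function of the ellipsoid. -/
def qf {n : ℕ} (w : Fin n → ℝ) (u : Eu n) : ℝ := ∑ i, w i * u i ^ 2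

lemma inner_sum {n : ℕ} (u x : Eu n) : inner ℝ u x = ∑ i, u i * x i := by
  rw [PiLp.inner_apply]
  exact Finset.sum_congr rfl fun i _ => by simp [mul_comm]

lemma norm_sq_sum {n : ℕ} (u : Eu n) : ‖u‖ ^ 2 = ∑ i, u i ^ 2 := by
  rw [← real_inner_self_eq_norm_sq, inner_sum]
  exact Finset.sum_congr rfl fun i _ => by ring

lemma qf_pos {n : ℕ} (w : Fin n → ℝ) (hw : ∀ i, 0 < w i) (u : Eu n) (hu : ‖u‖ = 1) :
    0 < qf w u := by
  have h1 : 0 < ∑ i, u i ^ 2 := by rw [← norm_sq_sum, hu]; norm_num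
  obtain ⟨i, -, hi⟩ := Finset.exists_lt_of_sum_lt (s := Finset.univ)
    (f := fun _ : Fin n => (0 : ℝ)) (g := fun i => u i ^ 2) (by simpa using h1)
  refine Finset.sum_pos' (fun j _ => mul_nonneg (hw j).le (sq_nonneg _)) ⟨i, Finset.mem_univ _, ?_⟩
  exact mul_pos (hw i) hi

/-- Centre of the section. -/
noncomputable def cen {n : ℕ} (w : Fin n → ℝ) (u : Eu n) (c : ℝ) : Eu n :=
  WithLp.toLp 2 (fun i => c * w i * u i / qf w u)

lemma inner_cen {n : ℕ} (w : Fin n → ℝ) (u : Eu n) (c : ℝ) (h : 0 < qf w u) :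
    inner ℝ u (cen w u c) = c := by
  rw [inner_sum]
  have : ∀ i, u i * (cen w u c) i = c / qf w u * (w i * u i ^ 2) := by
    intro i
    simp only [cen]
    field_simp
  rw [Finset.sum_congr rfl fun i _ => this i, ← Finset.mul_sum]
  change c / qf w u * qf w u = c
  field_simp

lemma sum_sec {n : ℕ} (w : Fin n → ℝ) (hw : ∀ i, 0 < w i) (u : Eu n) (c r : ℝ)
    (h : 0 < qf w u) (y : Eu n) (hy : inner ℝ u y = (0 : ℝ)) :
    ∑ i, (cen w u c + r • y) i ^ 2 / w i = c ^ 2 / qf w u + r ^ 2 * ∑ i, y i ^ 2 / w i := by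
  rw [inner_sum] at hy
  have : ∀ i, (cen w u c + r • y) i ^ 2 / w i =
      c ^ 2 / qf w u ^ 2 * (w i * u i ^ 2) + 2 * c * r / qf w u * (u i * y i)
        + r ^ 2 * (y i ^ 2 / w i) := by
    intro i
    have := hw i
    simp only [cen, PiLp.add_apply, PiLp.smul_apply, smul_eq_mul]
    field_simp
    ring
  rw [Finset.sum_congr rfl fun i _ => this i, Finset.sum_add_distrib, Finset.sum_add_distrib,
    ← Finset.mul_sum, ← Finset.mul_sum, ← Finset.mul_sum, hy]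
  have : c ^ 2 / qf w u ^ 2 * ∑ i, w i * u i ^ 2 = c ^ 2 / qf w u := by
    change c ^ 2 / qf w u ^ 2 * qf w u = _
    field_simp
  rw [this]
  ring

lemma sec_eq {n : ℕ} (w : Fin n → ℝ) (hw : ∀ i, 0 < w i) (u : Eu n) (hu : ‖u‖ = 1) (c : ℝ)
    (hc : c ^ 2 < qf w u) :
    Ell w ∩ {x | inner ℝ u x = c} =
      (fun y => cen w u c + y) ''
        (Real.sqrt (1 - c ^ 2 / qf w u) • (Ell w ∩ {x : Eu n | inner ℝ u x = (0 : ℝ)})) := by
  have hq := qf_pos w hw u hu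
  have hlt : 0 < 1 - c ^ 2 / qf w u := by
    rw [sub_pos, div_lt_one hq]; exact hc
  set r := Real.sqrt (1 - c ^ 2 / qf w u) with hr
  have hr0 : 0 < r := Real.sqrt_pos.2 hlt
  have hr2 : r ^ 2 = 1 - c ^ 2 / qf w u := Real.sq_sqrt hlt.le
  ext x
  constructor
  · rintro ⟨hx, hxc⟩
    have hxc' : inner ℝ u x = c := hxc
    refine ⟨x - cen w u c, ⟨r⁻¹ • (x - cen w u c), ?_, ?_⟩, by simp⟩
    · have hy : inner ℝ u (r⁻¹ • (x - cen w u c)) = (0 : ℝ) := by
        rw [inner_smul_right, inner_sub_right, hxc', inner_cen w u c hq]; simp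
      refine ⟨?_, hy⟩
      have h1 := sum_sec w hw u c r hq _ hy
      have h2 : cen w u c + r • (r⁻¹ • (x - cen w u c)) = x := by
        rw [smul_smul, mul_inv_cancel₀ hr0.ne', one_smul]; abel
      rw [h2] at h1
      have hx' : ∑ i, x i ^ 2 / w i ≤ 1 := hx
      have h3 : r ^ 2 * ∑ i, (r⁻¹ • (x - cen w u c)) i ^ 2 / w i ≤ r ^ 2 * 1 := by
        rw [mul_one]; linarith [h1, hx', hr2]
      exact le_of_mul_le_mul_left h3 (by positivity)
    · change r • (r⁻¹ • (x - cen w u c)) = x - cen w u c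
      rw [smul_smul, mul_inv_cancel₀ hr0.ne', one_smul]
  · rintro ⟨z, ⟨y, ⟨hy, hy0⟩, rfl⟩, rfl⟩
    have hy0' : inner ℝ u y = (0 : ℝ) := hy0
    have hy' : ∑ i, y i ^ 2 / w i ≤ 1 := hy
    have h1 := sum_sec w hw u c r hq y hy0'
    refine ⟨?_, ?_⟩
    · change ∑ i, (cen w u c + r • y) i ^ 2 / w i ≤ 1
      rw [h1, hr2]
      nlinarith [mul_le_mul_of_nonneg_left hy' hlt.le]
    · change inner ℝ u (cen w u c + r • y) = c
      rw [inner_add_right, inner_cen w u c hq, inner_smul_right, hy0', mul_zero, add_zero]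

lemma sec_empty {n : ℕ} (w : Fin n → ℝ) (hw : ∀ i, 0 < w i) (u : Eu n) (hu : ‖u‖ = 1) (c : ℝ)
    (hc : qf w u < c ^ 2) :
    Ell w ∩ {x | inner ℝ u x = c} = ∅ := by
  have hq := qf_pos w hw u hu
  rw [Set.eq_empty_iff_forall_notMem]
  rintro x ⟨hx, hxc⟩
  have hxc' : inner ℝ u x = c := hxc
  have hx' : ∑ i, x i ^ 2 / w i ≤ 1 := hx
  have hy : inner ℝ u (x - cen w u c) = (0 : ℝ) := by
    rw [inner_sub_right, hxc', inner_cen w u c hq]; simp
  have h1 := sum_sec w hw u c 1 hq _ hy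
  have h2 : cen w u c + (1 : ℝ) • (x - cen w u c) = x := by rw [one_smul]; abel
  rw [h2] at h1
  have h3 : 0 ≤ ∑ i, (x - cen w u c) i ^ 2 / w i :=
    Finset.sum_nonneg fun i _ => div_nonneg (sq_nonneg _) (hw i).le
  have h4 : 1 < c ^ 2 / qf w u := by rwa [one_lt_div hq]
  linarith

end CB3
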