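import Pool.Agent.Lib.MP_cb3f7b_gt.Ins.Psi

set_option autoImplicit false

namespace CB3

open MeasureTheory Set Metric Module Filter Topology
open scoped RealInnerProductSpace ENNReal NNReal Pointwise

/-- The quadratic form `x_0^2 - x_1^2`. -/
def qq {k : ℕ} (v : Eu (k + 2)) : ℝ := v 0 ^ 2 - v 1 ^ 2

/-- Signs of the perturbation. -/
def sn (k : ℕ) : Fin (k + 2) → ℝ := fun i => (if i = 0 then 1 else 0) - (if i = 1 then 1 else 0)

/-- Squared semiaxes. -/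
def wt (k : ℕ) (d : ℝ) : Fin (k + 2) → ℝ := fun i => 1 + d * sn k i

lemma sum_sn {k : ℕ} (f : Fin (k + 2) → ℝ) : ∑ i, sn k i * f i = f 0 - f 1 := by
  simp only [sn, sub_mul, Finset.sum_sub_distrib, ite_mul, one_mul, zero_mul,
    Finset.sum_ite_eq', Finset.mem_univ, if_true]

lemma qf_wt {k : ℕ} (d : ℝ) (u : Eu (k + 2)) (hu : ‖u‖ = 1) : qf (wt k d) u = 1 + d * qq u := by
  have h1 : qf (wt k d) u = ∑ i, u i ^ 2 + d * ∑ i, sn k i * u i ^ 2 := by
    rw [qf, Finset.mul_sum, ← Finset.sum_add_distrib]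
    exact Finset.sum_congr rfl fun i _ => by simp only [wt]; ring
  rw [h1, ← norm_sq_sum, hu, sum_sn (fun i => u i ^ 2), qq]
  ring

lemma two_le {k : ℕ} (v : Eu (k + 2)) : v 0 ^ 2 + v 1 ^ 2 ≤ ‖v‖ ^ 2 := by
  rw [norm_sq_sum]
  have h01 : (0 : Fin (k + 2)) ≠ 1 := by simp
  rw [← Finset.sum_pair (f := fun i => v i ^ 2) h01]
  exact Finset.sum_le_sum_of_subset_of_nonneg (Finset.subset_univ _) fun i _ _ => sq_nonneg _

lemma qq_abs {k : ℕ} (v : Eu (k + 2)) : |qq v| ≤ ‖v‖ ^ 2 := by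
  have h := two_le v
  rw [abs_le, qq]
  constructor <;> nlinarith [sq_nonneg (v 0), sq_nonneg (v 1)]

lemma qq_diff {k : ℕ} (u v : Eu (k + 2)) (hu : ‖u‖ = 1) (hv : ‖v‖ = 1) :
    (qq v - qq u) ^ 2 ≤ 4 * ‖v - u‖ ^ 2 := by
  have h1 := two_le (v - u)
  have h2 := two_le (v + u)
  have h3 : ‖v + u‖ ^ 2 ≤ 4 := by
    have : ‖v + u‖ ≤ 2 := (norm_add_le v u).trans (by rw [hu, hv]; norm_num)
    nlinarith [norm_nonneg (v + u)]
  simp only [PiLp.sub_apply, PiLp.add_apply] at h1 h2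
  have h4 : (qq v - qq u) ^ 2 ≤
      ((v 0 - u 0) ^ 2 + (v 1 - u 1) ^ 2) * ((v 0 + u 0) ^ 2 + (v 1 + u 1) ^ 2) := by
    have e : ((v 0 - u 0) ^ 2 + (v 1 - u 1) ^ 2) * ((v 0 + u 0) ^ 2 + (v 1 + u 1) ^ 2)
        - (qq v - qq u) ^ 2
        = ((v 0 - u 0) * (v 1 + u 1) + (v 1 - u 1) * (v 0 + u 0)) ^ 2 := by
      simp only [qq]; ring
    nlinarith [sq_nonneg ((v 0 - u 0) * (v 1 + u 1) + (v 1 - u 1) * (v 0 + u 0))]
  calc (qq v - qq u) ^ 2 ≤ _ := h4
    _ ≤ ‖v - u‖ ^ 2 * 4 := by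
        refine mul_le_mul h1 (h2.trans h3) (by positivity) (by positivity)
    _ = 4 * ‖v - u‖ ^ 2 := by ring

/-- The inner body. -/
def KB (k : ℕ) (d : ℝ) : Set (Eu (k + 2)) :=
  {p | ∀ v : Eu (k + 2), ‖v‖ = 1 → inner ℝ v p ≤ psi k (d * qq v)}

/-- The point of contact with the supporting hyperplane with unit normal `u`. -/
noncomputable def pt (k : ℕ) (d : ℝ) (u : Eu (k + 2)) : Eu (k + 2) :=
  (psi k (d * qq u) - 2 * d * deriv (psi k) (d * qq u) * qq u) • u +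
    (2 * d * deriv (psi k) (d * qq u)) •
      (EuclideanSpace.single 0 (u 0) - EuclideanSpace.single 1 (u 1))

lemma inner_pt (k : ℕ) (d : ℝ) (u v : Eu (k + 2)) :
    inner ℝ v (pt k d u) =
      (psi k (d * qq u) - 2 * d * deriv (psi k) (d * qq u) * qq u) * inner ℝ v u +
      2 * d * deriv (psi k) (d * qq u) * (u 0 * v 0 - u 1 * v 1) := by
  rw [pt, inner_add_right, inner_smul_right, inner_smul_right, inner_sub_right,
    EuclideanSpace.inner_single_right, EuclideanSpace.inner_single_right]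
  simp

lemma inner_pt_self (k : ℕ) (d : ℝ) (u : Eu (k + 2)) (hu : ‖u‖ = 1) :
    inner ℝ u (pt k d u) = psi k (d * qq u) := by
  rw [inner_pt, real_inner_self_eq_norm_sq, hu]
  have : u 0 * u 0 - u 1 * u 1 = qq u := by rw [qq]; ring
  rw [this]
  ring

lemma pt_mem (k : ℕ) (d r L g : ℝ) (hd : 0 < d) (hdr : d ≤ r) (hL : 0 ≤ L)
    (hT : ∀ s ∈ Icc (-r) r, |deriv (psi k) s| ≤ L ∧
      ∀ t ∈ Icc (-r) r, psi k s + deriv (psi k) s * (t - s) - L * (t - s) ^ 2 ≤ psi k t)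
    (hg : ∀ s ∈ Icc (-d) d, g ≤ psi k s) (hsmall : 2 * L * d + 4 * L * d ^ 2 ≤ g / 2)
    (u : Eu (k + 2)) (hu : ‖u‖ = 1) : pt k d u ∈ KB k d := by
  intro v hv
  have hin : ∀ z : Eu (k + 2), ‖z‖ = 1 → d * qq z ∈ Icc (-d) d := by
    intro z hz
    have h1 := qq_abs z
    rw [hz, one_pow, abs_le] at h1
    constructor <;> nlinarith
  have hsub : ∀ s ∈ Icc (-d) d, s ∈ Icc (-r) r := fun s hs =>
    ⟨by linarith [hs.1], by linarith [hs.2]⟩
  have hTu := hT _ (hsub _ (hin u hu))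
  have h1 := hTu.2 _ (hsub _ (hin v hv))
  have h2 := hTu.1
  have h3 := hg _ (hin u hu)
  rw [inner_pt]
  set P := psi k (d * qq u)
  set Q := psi k (d * qq v)
  set P' := deriv (psi k) (d * qq u)
  set D := ‖v - u‖ ^ 2 with hD
  have hD0 : 0 ≤ D := by positivity
  have hvu : inner ℝ v u = 1 - D / 2 := by
    have : D = ‖v‖ ^ 2 - 2 * inner ℝ v u + ‖u‖ ^ 2 := by
      rw [hD, @norm_sub_sq_real]
    rw [hu, hv] at this
    linarith
  have hpol : 2 * (u 0 * v 0 - u 1 * v 1) = qq u + qq v - qq (v - u) := by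
    simp only [qq, PiLp.sub_apply]; ring
  have hqu : |qq u| ≤ 1 := by have := qq_abs u; rwa [hu, one_pow] at this
  have hqd : |qq (v - u)| ≤ D := qq_abs _
  have hdiff : (d * qq v - d * qq u) ^ 2 ≤ 4 * d ^ 2 * D := by
    have := qq_diff u v hu hv
    have e : (d * qq v - d * qq u) ^ 2 = d ^ 2 * (qq v - qq u) ^ 2 := by ring
    rw [e]
    nlinarith [sq_nonneg d]
  have h5 : L * (d * qq v - d * qq u) ^ 2 ≤ L * (4 * d ^ 2 * D) :=
    mul_le_mul_of_nonneg_left hdiff hL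
  have h6 : P' * (d * (qq u * D - qq (v - u))) ≤ L * (d * (2 * D)) := by
    have a1 : |qq u * D - qq (v - u)| ≤ 2 * D := by
      have b1 : |qq u * D| ≤ D := by
        rw [abs_mul, abs_of_nonneg hD0]
        calc |qq u| * D ≤ 1 * D := mul_le_mul_of_nonneg_right hqu hD0
          _ = D := one_mul D
      have b2 := abs_sub (qq u * D) (qq (v - u))
      linarith
    calc P' * (d * (qq u * D - qq (v - u))) ≤ |P' * (d * (qq u * D - qq (v - u)))| := le_abs_self _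
      _ = |P'| * (d * |qq u * D - qq (v - u)|) := by rw [abs_mul, abs_mul, abs_of_pos hd]
      _ ≤ L * (d * (2 * D)) := by
          refine mul_le_mul h2 ?_ (by positivity) hL
          exact mul_le_mul_of_nonneg_left a1 hd.le
  rw [hvu]
  have e : (P - 2 * d * P' * qq u) * (1 - D / 2) + 2 * d * P' * (u 0 * v 0 - u 1 * v 1)
      = P * (1 - D / 2) + P' * (d * qq v - d * qq u) + P' * (d * (qq u * D - qq (v - u))) := by
    have : 2 * d * P' * (u 0 * v 0 - u 1 * v 1) = d * P' * (qq u + qq v - qq (v - u)) := by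
      rw [← hpol]; ring
    rw [this]; ring
  rw [e]
  have h7 : (2 * L * d + 4 * L * d ^ 2) * D ≤ g / 2 * D := mul_le_mul_of_nonneg_right hsmall hD0
  have h8 : g * D ≤ P * D := mul_le_mul_of_nonneg_right h3 hD0
  nlinarith

lemma KB_convex (k : ℕ) (d : ℝ) : Convex ℝ (KB k d) := by
  intro p hp q hq s t hs ht hst v hv
  rw [inner_add_right, inner_smul_right, inner_smul_right]
  have h1 := mul_le_mul_of_nonneg_left (hp v hv) hs
  have h2 := mul_le_mul_of_nonneg_left (hq v hv) ht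
  have h3 : s * psi k (d * qq v) + t * psi k (d * qq v) = psi k (d * qq v) := by
    rw [← add_mul, hst, one_mul]
  linarith

lemma KB_closed (k : ℕ) (d : ℝ) : IsClosed (KB k d) := by
  have : KB k d = ⋂ (v : Eu (k + 2)) (_ : ‖v‖ = 1), {p | inner ℝ v p ≤ psi k (d * qq v)} := by
    ext p; simp [KB]
  rw [this]
  exact isClosed_iInter fun v => isClosed_iInter fun _ =>
    isClosed_le (by fun_prop) continuous_const

lemma KB_sub (k : ℕ) (d R : ℝ) (hR : 0 ≤ R) (h : ∀ v : Eu (k + 2), ‖v‖ = 1 → psi k (d * qq v) ≤ R) :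
    KB k d ⊆ closedBall 0 R := by
  intro p hp
  rw [mem_closedBall_zero_iff]
  by_cases h0 : p = 0
  · rw [h0, norm_zero]; exact hR
  have hn : 0 < ‖p‖ := norm_pos_iff.2 h0
  have hu : ‖(‖p‖⁻¹ • p)‖ = 1 := by rw [norm_smul, norm_inv, norm_norm, inv_mul_cancel₀ hn.ne']
  have h1 := (hp _ hu).trans (h _ hu)
  rw [real_inner_smul_left, real_inner_self_eq_norm_sq] at h1
  have : ‖p‖⁻¹ * ‖p‖ ^ 2 = ‖p‖ := by field_simp
  rwa [this] at h1

lemma ball_sub (k : ℕ) (d R : ℝ) (h : ∀ v : Eu (k + 2), ‖v‖ = 1 → R ≤ psi k (d * qq v)) :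
    closedBall 0 R ⊆ KB k d := by
  intro p hp v hv
  rw [mem_closedBall_zero_iff] at hp
  calc inner ℝ v p ≤ ‖v‖ * ‖p‖ := real_inner_le_norm v p
    _ ≤ R := by rw [hv, one_mul]; exact hp
    _ ≤ _ := h v hv

end CB3
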